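import Mathlib

open Filter Topology

namespace Pool.Agent.Results.MP_3a5480_gt.PixleyRoySHD

universe u

/-- The sequence `x` has no convergent subsequences: no subsequence of it converges
to any point of the space. -/
def NoConvergentSubseq {X : Type u} [TopologicalSpace X] (x : ℕ → X) : Prop :=
  ∀ φ : ℕ → ℕ, StrictMono φ → ∀ a : X, ¬ Tendsto (fun n => x (φ n)) atTop (𝓝 a)

/-- Selectively highly divergent spaces. -/
def SHD (X : Type u) [TopologicalSpace X] : Prop :=
  ∀ U : ℕ → Set X, (∀ n, IsOpen (U n)) → (∀ n, (U n).Nonempty) →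
    ∃ x : ℕ → X, (∀ n, x n ∈ U n) ∧ NoConvergentSubseq x

/-- The points of the Pixley-Roy hyperspace: the nonempty finite subsets of `X`. -/
structure PixleyRoy (X : Type u) where
  /-- the underlying set -/
  carrier : Set X
  finite : carrier.Finite
  nonempty : carrier.Nonempty

/-- The basic set `[F, V]`, the finite sets `H` with `F ⊆ H ⊆ V`. -/
def PixleyRoy.box {X : Type u} (F : PixleyRoy X) (V : Set X) : Set (PixleyRoy X) :=
  {H | F.carrier ⊆ H.carrier ∧ H.carrier ⊆ V}

/-- The Pixley-Roy topology: the sets `[F, V]` with `V` open and `F ⊆ V` form a local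
base at `F`. -/
instance PixleyRoy.instTopologicalSpace (X : Type u) [TopologicalSpace X] :
    TopologicalSpace (PixleyRoy X) where
  IsOpen W := ∀ F ∈ W, ∃ V : Set X, IsOpen V ∧ F.carrier ⊆ V ∧ F.box V ⊆ W
  isOpen_univ := fun _ _ => ⟨Set.univ, isOpen_univ, Set.subset_univ _, Set.subset_univ _⟩
  isOpen_inter := by
    rintro s t hs ht F ⟨hFs, hFt⟩
    obtain ⟨V, hV, hFV, hVs⟩ := hs F hFs
    obtain ⟨W, hW, hFW, hWt⟩ := ht F hFt
    refine ⟨V ∩ W, hV.inter hW, Set.subset_inter hFV hFW, ?_⟩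
    rintro H ⟨h1, h2⟩
    exact ⟨hVs ⟨h1, h2.trans Set.inter_subset_left⟩, hWt ⟨h1, h2.trans Set.inter_subset_right⟩⟩
  isOpen_sUnion := by
    rintro S hS F ⟨s, hsS, hFs⟩
    obtain ⟨V, hV, hFV, hVs⟩ := hS s hsS F hFs
    exact ⟨V, hV, hFV, hVs.trans (Set.subset_sUnion_of_mem hsS)⟩

theorem isOpen_box {X : Type u} [TopologicalSpace X] (F : PixleyRoy X) {V : Set X}
    (hV : IsOpen V) : IsOpen (F.box V) := by
  rintro H ⟨h1, h2⟩
  refine ⟨V, hV, h2, ?_⟩
  rintro K ⟨h3, h4⟩
  exact ⟨h1.trans h3, h4⟩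

theorem exists_subseq {X : Type u} [TopologicalSpace X] (S : Set X) (hS : S.Finite) :
    ∀ y : ℕ → X, (∀ V : Set X, IsOpen V → S ⊆ V → ∀ᶠ n in atTop, y n ∈ V) →
      ∃ a ∈ S, ∃ φ : ℕ → ℕ, StrictMono φ ∧ Tendsto (fun n => y (φ n)) atTop (𝓝 a) := by
  induction S, hS using Set.Finite.induction_on with
  | empty =>
    intro y hy
    obtain ⟨n, hn⟩ := (hy ∅ isOpen_empty (Set.empty_subset _)).exists
    exact hn.elim
  | insert _ _ ih =>
    rename_i a S _ _
    intro y hy
    by_cases hya : Tendsto y atTop (𝓝 a)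
    · exact ⟨a, Set.mem_insert _ _, id, strictMono_id, hya⟩
    · rw [(nhds_basis_opens a).tendsto_right_iff] at hya
      push Not at hya
      obtain ⟨W, ⟨haW, hW⟩, hfreq⟩ := hya
      obtain ⟨φ, hφ, hφW⟩ := extraction_of_frequently_atTop hfreq
      have key : ∀ V : Set X, IsOpen V → S ⊆ V → ∀ᶠ n in atTop, y (φ n) ∈ V := by
        intro V hV hSV
        have h1 := hy (W ∪ V) (hW.union hV)
          (Set.insert_subset (Or.inl haW) (hSV.trans Set.subset_union_right))
        have h2 := hφ.tendsto_atTop.eventually h1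
        filter_upwards [h2] with n hn
        rcases hn with hn | hn
        · exact absurd hn (hφW n)
        · exact hn
      obtain ⟨b, hbS, ψ, hψ, hlim⟩ := ih (fun n => y (φ n)) key
      exact ⟨b, Set.mem_insert_of_mem _ hbS, fun n => φ (ψ n), hφ.comp hψ, hlim⟩

/-- For every `T₁` space `X`, if `X` is selectively highly divergent then so is its
Pixley-Roy hyperspace. -/
theorem result : ∀ (X : Type u) [TopologicalSpace X] [T1Space X], SHD X → SHD (PixleyRoy X) := by
  intro X _ _ hX U hUo hUn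
  choose F hF using hUn
  have h1 : ∀ n, ∃ V : Set X, IsOpen V ∧ (F n).carrier ⊆ V ∧ (F n).box V ⊆ U n :=
    fun n => hUo n (F n) (hF n)
  choose V hVo hFV hVU using h1
  obtain ⟨x, hxV, hx⟩ := hX V hVo (fun n => (F n).nonempty.mono (hFV n))
  refine ⟨fun n => ⟨insert (x n) (F n).carrier, (F n).finite.insert _,
    Set.insert_nonempty _ _⟩, ?_, ?_⟩
  · intro n
    exact hVU n ⟨Set.subset_insert _ _, Set.insert_subset (hxV n) (hFV n)⟩
  · intro φ hφ H hlim
    have key : ∀ W : Set X, IsOpen W → H.carrier ⊆ W → ∀ᶠ n in atTop, x (φ n) ∈ W := by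
      intro W hW hHW
      have h2 : H.box W ∈ 𝓝 H := (isOpen_box H hW).mem_nhds ⟨subset_rfl, hHW⟩
      filter_upwards [hlim h2] with n hn
      exact hn.2 (Set.mem_insert _ _)
    obtain ⟨a, _, ψ, hψ, ha⟩ := exists_subseq H.carrier H.finite (fun n => x (φ n)) key
    exact hx (fun n => φ (ψ n)) (hφ.comp hψ) a ha

end Pool.Agent.Results.MP_3a5480_gt.PixleyRoySHD
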